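import Pool.Agent.Q251.InitPrimes

/-!
# MP_9f71e8_nt, Q1: `33` is the largest positive integer which is not a sum of positive powers of the initial primes
-/

set_option autoImplicit false

namespace Pool.Agent.Results.MP_9f71e8_nt.LargestException

/-- `n = 2 ^ α 0 + 3 ^ α 1 + ⋯ + (the L-th prime) ^ α (L - 1)` for some `L ≥ 1` and some exponents `α j ≥ 1`.
(`Nat.nth Nat.Prime j` is the prime number `j`, counted from `0`: `2, 3, 5, 7, ...`.) -/
def Representable (n : ℕ) : Prop :=
  ∃ L : ℕ, 1 ≤ L ∧ ∃ α : ℕ → ℕ, (∀ j < L, 1 ≤ α j) ∧ n = ∑ j ∈ Finset.range L, Nat.nth Nat.Prime j ^ α j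

/-- `33` is the largest positive integer which is not representable; that is, `33` is not representable and
every integer `n ≥ 34` is representable. -/
theorem result : IsGreatest {n : ℕ | 0 < n ∧ ¬ Representable n} 33 := by
  refine ⟨⟨by norm_num, ?_⟩, ?_⟩
  · rintro ⟨L, hL, α, hα, h⟩
    exact Q251.IP.not_rep33 L hL α hα h.symm
  · rintro n ⟨-, hn⟩
    by_contra hcon
    obtain ⟨L, hL, a, ha, h⟩ := Q251.IP.all_rep n (by omega)
    exact hn ⟨L, hL, a, fun j _ => ha j, h.symm⟩

end Pool.Agent.Results.MP_9f71e8_nt.LargestException
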